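import Pool.Agent.R904.Voi.Alt

/-!
# The alternating sum for symmetric and antisymmetric arguments
-/

namespace Pool.Agent.R673.VO

open Equiv Pool.Agent.R904.Voi

variable {M : Type*} [AddCommGroup M] [Module ℚ M] {n : ℕ}

/-- The exchange of `inl j` and `inr j` for `j` with `f j`. -/
def flFun (f : Fin n → Bool) : Fin n ⊕ Fin n → Fin n ⊕ Fin n
  | Sum.inl j => if f j then Sum.inr j else Sum.inl j
  | Sum.inr j => if f j then Sum.inl j else Sum.inr j

lemma flFun_inv (f : Fin n → Bool) : Function.Involutive (flFun f) := by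
  intro k
  rcases k with j | j <;> by_cases h : f j = true <;> simp [flFun, h]

/-- The exchange of `inl j` and `inr j` for `j` with `f j`, as a permutation. -/
def fl (f : Fin n → Bool) : Perm (Fin n ⊕ Fin n) := (flFun_inv f).toPerm

lemma fl_inl (f : Fin n → Bool) (j : Fin n) :
    fl f (Sum.inl j) = if f j then Sum.inr j else Sum.inl j := rfl

lemma fl_inr (f : Fin n → Bool) (j : Fin n) :
    fl f (Sum.inr j) = if f j then Sum.inl j else Sum.inr j := rfl

lemma fl_eq (f : Fin n → Bool) (s : Finset (Fin n)) (hs : ∀ j, f j = true → j ∈ s) :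
    ((Perm.sign (fl f) : ℤ) : ℚ) = ∏ j ∈ s, if f j then (-1 : ℚ) else 1 := by
  classical
  induction s using Finset.induction_on generalizing f with
  | empty =>
    have h : fl f = 1 := by
      ext k
      rcases k with j | j
      · have : ¬ f j = true := fun h => absurd (hs j h) (Finset.notMem_empty _)
        simp [fl_inl, this]
      · have : ¬ f j = true := fun h => absurd (hs j h) (Finset.notMem_empty _)
        simp [fl_inr, this]
    rw [h]
    simp
  | insert a s ha ih =>
    by_cases hf : f a = true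
    · -- split off the exchange at `a`
      let g : Fin n → Bool := Function.update f a false
      have h1 : fl f = fl g * swap (Sum.inl a) (Sum.inr a) := by
        ext k
        rcases k with j | j
        · by_cases hj : j = a
          · subst hj
            simp [fl_inl, fl_inr, hf, g]
          · rw [Perm.mul_apply, swap_apply_of_ne_of_ne (by simpa using hj) (by simp)]
            simp [fl_inl, g, Function.update_of_ne hj]
        · by_cases hj : j = a
          · subst hj
            simp [fl_inl, fl_inr, hf, g]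
          · rw [Perm.mul_apply, swap_apply_of_ne_of_ne (by simp) (by simpa using hj)]
            simp [fl_inr, g, Function.update_of_ne hj]
      have h2 : ∀ j, g j = true → j ∈ s := by
        intro j hj
        by_cases hja : j = a
        · subst hja
          simp [g] at hj
        · have h3 : f j = true := by simpa [g, Function.update_of_ne hja] using hj
          exact (Finset.mem_insert.1 (hs j h3)).resolve_left hja
      rw [h1, Perm.sign_mul, Perm.sign_swap (by simp), Finset.prod_insert ha, if_pos hf]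
      push_cast
      rw [ih g h2, mul_comm]
      congr 1
      refine Finset.prod_congr rfl fun j hj => ?_
      have hja : j ≠ a := fun h => ha (h ▸ hj)
      simp [g, Function.update_of_ne hja]
    · have h2 : ∀ j, f j = true → j ∈ s := by
        intro j hj
        refine (Finset.mem_insert.1 (hs j hj)).resolve_left ?_
        rintro rfl
        exact hf hj
      rw [ih f h2, Finset.prod_insert ha, if_neg hf, one_mul]

lemma sign_fl (f : Fin n → Bool) :
    ((Perm.sign (fl f) : ℤ) : ℚ) = ∏ j, if f j then (-1 : ℚ) else 1 :=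
  fl_eq f Finset.univ fun j _ => Finset.mem_univ j

/-- The number of basis vectors of the exterior square (`ε = 1`) and of the symmetric square
(`ε = -1`) of a space of dimension `a`. -/
def sq (ε : ℤˣ) (a : ℕ) : ℕ := if ε = 1 then a.choose 2 else (a + 1).choose 2

lemma det_pairs {a : ℕ} {ε : ℤˣ} (hn : sq ε a < n) (c d : Fin n → Fin a)
    (Y Y' : Fin a → Fin n → ℚ) :
    (Matrix.of fun i j : Fin n => Y (c j) i * Y' (d j) i -
      ((ε : ℤ) : ℚ) * (Y' (c j) i * Y (d j) i)).det = 0 := by
  classical
  let N : Matrix (Fin n) (Fin n) ℚ := Matrix.of fun i j => Y (min (c j) (d j)) i *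
    Y' (max (c j) (d j)) i - ((ε : ℤ) : ℚ) * (Y' (min (c j) (d j)) i * Y (max (c j) (d j)) i)
  let s : Fin n → ℚ := fun j => if c j ≤ d j then 1 else -((ε : ℤ) : ℚ)
  have hε2 : ((ε : ℤ) : ℚ) * ((ε : ℤ) : ℚ) = 1 := by
    rw [← Int.cast_mul, Int.units_coe_mul_self, Int.cast_one]
  have h1 : (Matrix.of fun i j : Fin n => Y (c j) i * Y' (d j) i -
      ((ε : ℤ) : ℚ) * (Y' (c j) i * Y (d j) i)) = Matrix.of fun i j => s j * N i j := by
    funext i j
    simp only [Matrix.of_apply, s, N]
    by_cases h : c j ≤ d j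
    · rw [if_pos h, min_eq_left h, max_eq_right h, one_mul]
    · rw [if_neg h, min_eq_right (le_of_not_ge h), max_eq_left (le_of_not_ge h)]
      linear_combination (-1 : ℚ) * (Y (c j) i * Y' (d j) i) * hε2
  rw [h1, Matrix.det_mul_row]
  have hcol : ∀ j j', s(c j, d j) = s(c j', d j') → ∀ i, N i j = N i j' := by
    intro j j' h i
    simp only [N, Matrix.of_apply]
    rcases Sym2.eq_iff.1 h with ⟨h2, h3⟩ | ⟨h2, h3⟩
    · rw [h2, h3]
    · rw [h2, h3, min_comm, max_comm]
  suffices h : N.det = 0 by rw [h, mul_zero]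
  by_cases hε : ε = 1
  · by_cases hdiag : ∃ j, c j = d j
    · obtain ⟨j, hj⟩ := hdiag
      refine Matrix.det_eq_zero_of_column_eq_zero j fun i => ?_
      simp only [N, Matrix.of_apply, hj, min_self, max_self, hε]
      push_cast
      ring
    · push Not at hdiag
      rw [sq, if_pos hε] at hn
      have hcard : Fintype.card {e : Sym2 (Fin a) // ¬ e.IsDiag} < Fintype.card (Fin n) := by
        rw [Sym2.card_subtype_not_diag, Fintype.card_fin, Fintype.card_fin]
        exact hn
      obtain ⟨j, j', hne, heq⟩ := Fintype.exists_ne_map_eq_of_card_lt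
        (fun j => (⟨s(c j, d j), by rw [Sym2.mk_isDiag_iff]; exact hdiag j⟩ :
          {e : Sym2 (Fin a) // ¬ e.IsDiag})) hcard
      exact Matrix.det_zero_of_column_eq hne (hcol j j' (congrArg Subtype.val heq))
  · rw [sq, if_neg hε] at hn
    have hcard : Fintype.card (Sym2 (Fin a)) < Fintype.card (Fin n) := by
      rw [Sym2.card, Fintype.card_fin, Fintype.card_fin]
      exact hn
    obtain ⟨j, j', hne, heq⟩ := Fintype.exists_ne_map_eq_of_card_lt
      (fun j => s(c j, d j)) hcard
    exact Matrix.det_zero_of_column_eq hne (hcol j j' heq)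

/-- The diagonal permutation. -/
def dc (σ : Perm (Fin n)) : Perm (Fin n ⊕ Fin n) := Perm.sumCongr σ σ

lemma dc_fl_inl (σ : Perm (Fin n)) (f : Fin n → Bool) (j : Fin n) :
    (dc σ * fl f) (Sum.inl j) = if f j then Sum.inr (σ j) else Sum.inl (σ j) := by
  rw [Perm.mul_apply, fl_inl]
  split_ifs <;> simp [dc]

lemma dc_fl_inr (σ : Perm (Fin n)) (f : Fin n → Bool) (j : Fin n) :
    (dc σ * fl f) (Sum.inr j) = if f j then Sum.inl (σ j) else Sum.inr (σ j) := by
  rw [Perm.mul_apply, fl_inr]
  split_ifs <;> simp [dc]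

lemma dc_fl_inj {σ τ : Perm (Fin n)} {f g : Fin n → Bool} (h : dc σ * fl f = dc τ * fl g) :
    σ = τ ∧ f = g := by
  have h1 : ∀ j, σ j = τ j ∧ f j = g j := by
    intro j
    have h2 := congrArg (fun π : Perm (Fin n ⊕ Fin n) => π (Sum.inl j)) h
    simp only [dc_fl_inl] at h2
    by_cases hf : f j = true <;> by_cases hg : g j = true <;> simp_all
  exact ⟨Equiv.ext fun j => (h1 j).1, funext fun j => (h1 j).2⟩

theorem alt_sym {a : ℕ} {ε : ℤˣ} (hn : sq ε a < n) (z : Perm (Fin n ⊕ Fin n) → M)
    (h1 : ∀ (π : Perm (Fin n ⊕ Fin n)) (f : Fin n → Bool),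
      z (π * fl f) = (∏ j, if f j then ((ε : ℤ) : ℚ) else 1) • z π)
    (h2 : ∀ A : Finset (Fin n ⊕ Fin n), A.card = a + 1 → ∀ π : Perm (Fin n ⊕ Fin n),
      ∑ ρ : Perm A, z (π * Perm.ofSubtype ρ) = 0) :
    ∑ σ : Perm (Fin n), ((Perm.sign σ : ℤ) : ℚ) • z (dc σ) = 0 := by
  classical
  have hε2 : ((ε : ℤ) : ℚ) * ((ε : ℤ) : ℚ) = 1 := by
    rw [← Int.cast_mul, Int.units_coe_mul_self, Int.cast_one]
  let wt : (Fin n → Bool) → ℚ := fun f => ∏ j, if f j then -((ε : ℤ) : ℚ) else 1
  let F : Perm (Fin n ⊕ Fin n) → ℚ := fun π =>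
    ∑ σ : Perm (Fin n), ∑ f : Fin n → Bool,
      if dc σ * fl f = π then ((Perm.sign σ : ℤ) : ℚ) * wt f else 0
  have key := alt_sum (κ := Fin n ⊕ Fin n) (Q := Unit) (Γ := Fin a) (M := M)
    (fun _ => ()) (fun _ => ()) F (fun _ _ _ => rfl) ?_ z ?_
  · have e1 : ∑ π : Perm (Fin n ⊕ Fin n), (((Perm.sign π : ℤ) : ℚ) * F π) • z π =
        (2 : ℚ) ^ n • ∑ σ : Perm (Fin n), ((Perm.sign σ : ℤ) : ℚ) • z (dc σ) := by
      have e2 : ∀ π : Perm (Fin n ⊕ Fin n), (((Perm.sign π : ℤ) : ℚ) * F π) • z π =
          ∑ σ : Perm (Fin n), ∑ f : Fin n → Bool, if dc σ * fl f = π then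
            ((Perm.sign σ : ℤ) : ℚ) • z (dc σ) else 0 := by
        intro π
        simp only [F]
        rw [Finset.mul_sum, Finset.sum_smul]
        refine Finset.sum_congr rfl fun σ _ => ?_
        rw [Finset.mul_sum, Finset.sum_smul]
        refine Finset.sum_congr rfl fun f _ => ?_
        split_ifs with h
        · subst h
          have e3 : ((Perm.sign (dc σ * fl f) : ℤ) : ℚ) = ∏ j, if f j then (-1 : ℚ) else 1 := by
            rw [Perm.sign_mul, dc, Perm.sign_sumCongr]
            rw [← sign_fl]
            congr 2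
            rw [Int.units_mul_self, one_mul]
          rw [h1, e3, smul_smul]
          congr 1
          have e4 : (∏ j, if f j then (-1 : ℚ) else 1) * wt f *
              (∏ j, if f j then ((ε : ℤ) : ℚ) else 1) = 1 := by
            simp only [wt]
            rw [← Finset.prod_mul_distrib, ← Finset.prod_mul_distrib]
            refine Finset.prod_eq_one fun j _ => ?_
            split_ifs
            · linear_combination hε2
            · ring
          linear_combination ((Perm.sign σ : ℤ) : ℚ) * e4
        · rw [mul_zero, zero_smul]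
      rw [Finset.sum_congr rfl fun π _ => e2 π, Finset.sum_comm, Finset.smul_sum]
      refine Finset.sum_congr rfl fun σ _ => ?_
      rw [Finset.sum_comm]
      have e5 : ∀ f : Fin n → Bool, (∑ π : Perm (Fin n ⊕ Fin n), if dc σ * fl f = π then
            ((Perm.sign σ : ℤ) : ℚ) • z (dc σ) else 0) = ((Perm.sign σ : ℤ) : ℚ) • z (dc σ) := by
        intro f
        rw [Finset.sum_ite_eq]
        simp
      rw [Finset.sum_congr rfl fun f _ => e5 f, Finset.sum_const, Finset.card_univ,
        ← Nat.cast_smul_eq_nsmul ℚ]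
      congr 1
      simp
    rw [e1] at key
    exact (smul_eq_zero.1 key).resolve_left (by positivity)
  · intro c _ Y
    have e1 : ∑ π : Perm (Fin n ⊕ Fin n), F π * ∏ k, Y (c k) (π k) =
        (Matrix.of fun i j : Fin n => Y (c (Sum.inl j)) (Sum.inl i) *
          Y (c (Sum.inr j)) (Sum.inr i) - ((ε : ℤ) : ℚ) * (Y (c (Sum.inl j)) (Sum.inr i) *
          Y (c (Sum.inr j)) (Sum.inl i))).det := by
      rw [Matrix.det_apply]
      have e2 : ∀ π : Perm (Fin n ⊕ Fin n), F π * ∏ k, Y (c k) (π k) =
          ∑ σ : Perm (Fin n), ∑ f : Fin n → Bool, if dc σ * fl f = π then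
            ((Perm.sign σ : ℤ) : ℚ) * (wt f * ∏ k, Y (c k) ((dc σ * fl f) k)) else 0 := by
        intro π
        simp only [F]
        rw [Finset.sum_mul]
        refine Finset.sum_congr rfl fun σ _ => ?_
        rw [Finset.sum_mul]
        refine Finset.sum_congr rfl fun f _ => ?_
        split_ifs with h
        · subst h
          rw [mul_assoc]
        · rw [zero_mul]
      rw [Finset.sum_congr rfl fun π _ => e2 π, Finset.sum_comm]
      refine Finset.sum_congr rfl fun σ _ => ?_
      rw [Finset.sum_comm]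
      have e3 : ∀ f : Fin n → Bool, (∑ π : Perm (Fin n ⊕ Fin n), if dc σ * fl f = π then
            ((Perm.sign σ : ℤ) : ℚ) * (wt f * ∏ k, Y (c k) ((dc σ * fl f) k)) else 0) =
            ((Perm.sign σ : ℤ) : ℚ) * ∏ j : Fin n, (if f j then -(((ε : ℤ) : ℚ) *
              (Y (c (Sum.inl j)) (Sum.inr (σ j)) * Y (c (Sum.inr j)) (Sum.inl (σ j)))) else
              Y (c (Sum.inl j)) (Sum.inl (σ j)) * Y (c (Sum.inr j)) (Sum.inr (σ j))) := by
        intro f
        rw [Finset.sum_ite_eq, if_pos (Finset.mem_univ _), Fintype.prod_sum_type]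
        simp only [wt]
        rw [← Finset.prod_mul_distrib, ← Finset.prod_mul_distrib]
        congr 1
        refine Finset.prod_congr rfl fun j _ => ?_
        rw [dc_fl_inl, dc_fl_inr]
        split_ifs
        · ring
        · ring
      rw [Finset.sum_congr rfl fun f _ => e3 f, ← Finset.mul_sum, Units.smul_def, zsmul_eq_mul]
      congr 1
      have e4 := (Finset.prod_univ_sum (fun _ : Fin n => (Finset.univ : Finset Bool))
        (fun (j : Fin n) (b : Bool) => if b then -(((ε : ℤ) : ℚ) *
              (Y (c (Sum.inl j)) (Sum.inr (σ j)) * Y (c (Sum.inr j)) (Sum.inl (σ j)))) else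
              Y (c (Sum.inl j)) (Sum.inl (σ j)) * Y (c (Sum.inr j)) (Sum.inr (σ j)))).symm
      rw [Fintype.piFinset_univ] at e4
      rw [e4]
      refine Finset.prod_congr rfl fun j _ => ?_
      rw [Matrix.of_apply, Fintype.sum_bool]
      simp only [if_true, Bool.false_eq_true, if_false]
      ring
    rw [e1]
    have h := det_pairs (n := n) hn (fun j => c (Sum.inl j)) (fun j => c (Sum.inr j))
      (fun γ i => Y γ (Sum.inl i)) (fun γ i => Y γ (Sum.inr i))
    exact h
  · intro _ A hA _ π _
    refine h2 A ?_ π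
    rw [hA]
    congr 1
    simp

end Pool.Agent.R673.VO
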