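import Pool.Agent.Y152.AS.Defs
import Pool.Agent.TH829.Kim.Defs

/-!
# Surfaces whose zero-cycles come from products and squares of motives of curves: definitions
-/

open CategoryTheory AlgebraicGeometry

universe u v w

namespace Pool.Agent.R673.VO

open Pool.Agent.H914 Pool.Agent.H914.VarClass Pool.Agent.H914.VarClass.Obj Pool.Agent.W492.BB
  Pool.Agent.W550.Corr Pool.Agent.TH133 Pool.Agent.TH829.Kim Pool.Agent.Y152.AS

variable {k : Type u} [Field k] {𝒱 : VarClass k}

/-- The assertion of Voisin for the surface `S` and all `n > g`: for all zero-cycles `α_1, …, α_n` in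
the Albanese kernel of `S` the sum `∑_σ sgn(σ) α_σ(1) × ⋯ × α_σ(n)` is zero in `CH^(2n)(S^n)_ℚ`
(this is the case `W = S^n`, `s_i` the projections, of the equation below). -/
def VoisinAbove (C : TheoryData.{u, v, 0} 𝒱 ℚ) (S : 𝒱.Obj) (g : ℕ) : Prop :=
  ∀ n : ℕ, g < n → ∀ α : Fin n → C.A S, (∀ i, InAlbKer C (α i)) →
    ∀ (W : 𝒱.Obj) (s : Fin n → (W ⟶ S)),
      ∑ σ : Equiv.Perm (Fin n), (Equiv.Perm.sign σ : ℤ) •
        (List.ofFn fun i => C.up (s i) (α (σ i))).prod = 0

/-- `X` is a curve and the self-correspondence `p` of degree zero is a symmetric projector which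
cuts out a (self-dual) summand `M` of the motive `h^1(X)` of rank at most `2 c`, in the sense that
`Sym^(2 c + 1) M = 0`. (By the theorem of Kimura all symmetric projectors cutting out a summand of
`h^1(X)` of rank `2 c` have this property.) -/
structure IsHalfRank (C : TheoryData.{u, v, 0} 𝒱 ℚ) {X : 𝒱.Obj} (p : C.A (X.prod X)) (c : ℕ) :
    Prop where
  dim_eq : X.dim = 1
  deg : C.Deg 1 p
  idem : C.comp p p = p
  symm : tp C p = p
  kimura : ∀ (W : 𝒱.Obj) (x y : Fin (2 * c + 1) → (W ⟶ X)), symPower C p x y = 0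

/-- The component of the zero-cycle `β` on `X × Y` in the tensor product of the motives
`M = (X, p)` and `M' = (Y, q)`. -/
noncomputable def tensorPart (C : TheoryData.{u, v, 0} 𝒱 ℚ) {X Y : 𝒱.Obj} (p : C.A (X.prod X))
    (q : C.A (Y.prod Y)) (β : C.A (X.prod Y)) : C.A (X.prod Y) := C.comp (C.comp p β) q

/-- Twice the component of the zero-cycle `β` on `Z × Z` in the part of the square of the motive
`M = (Z, m)` on which the exchange of the factors of `Z × Z` acts as `ε = ± 1`. -/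
noncomputable def squarePart (C : TheoryData.{u, v, 0} 𝒱 ℚ) {Z : 𝒱.Obj} (m : C.A (Z.prod Z))
    (ε : ℤˣ) (β : C.A (Z.prod Z)) : C.A (Z.prod Z) :=
  C.comp (C.comp m (β + (ε : ℤ) • tp C β)) m

/-- The zero-cycles in the Albanese kernel of the surface `S` come from those of the surfaces `R i`,
from the tensor products of the motives `(X j, p j)` and `(Y j, q j)`, and from the parts of sign
`ε j` of the squares of the motives `(Z j, m j)`: there are correspondences `u i`, `v j`, `w j` of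
degree zero from `S` to `R i`, `X j × Y j` and `Z j × Z j`, correspondences `u' i`, `v' j`, `w' j` of
degree zero in the other direction, and an `N ≠ 0` with
`N α = ∑ u'_* u_* α + ∑ v'_* (tensorPart v_* α) + ∑ w'_* (squarePart w_* α)` for all `α` in the
Albanese kernel of `S`. -/
def IsSpanned (C : TheoryData.{u, v, 0} 𝒱 ℚ) (S : 𝒱.Obj) {ι₁ ι₂ ι₃ : Type} [Fintype ι₁]
    [Fintype ι₂] [Fintype ι₃] (R : ι₁ → 𝒱.Obj) {X Y : ι₂ → 𝒱.Obj}
    (p : ∀ j, C.A ((X j).prod (X j))) (q : ∀ j, C.A ((Y j).prod (Y j))) {Z : ι₃ → 𝒱.Obj}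
    (m : ∀ j, C.A ((Z j).prod (Z j))) (ε : ι₃ → ℤˣ) : Prop :=
  S.dim = 2 ∧ (∀ i, (R i).dim = 2) ∧ ∃ (N : ℚ) (u : ∀ i, C.A (S.prod (R i)))
    (u' : ∀ i, C.A ((R i).prod S)) (v : ∀ j, C.A (S.prod ((X j).prod (Y j))))
    (v' : ∀ j, C.A (((X j).prod (Y j)).prod S)) (w : ∀ j, C.A (S.prod ((Z j).prod (Z j))))
    (w' : ∀ j, C.A (((Z j).prod (Z j)).prod S)), N ≠ 0 ∧
    (∀ i, C.Deg 2 (u i) ∧ C.Deg 2 (u' i)) ∧ (∀ j, C.Deg 2 (v j) ∧ C.Deg 2 (v' j)) ∧
    (∀ j, C.Deg 2 (w j) ∧ C.Deg 2 (w' j)) ∧ ∀ α : C.A S, InAlbKer C α → N • α =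
      ∑ i, C.act (u' i) (C.act (u i) α) +
      ∑ j, C.act (v' j) (tensorPart C (p j) (q j) (C.act (v j) α)) +
      ∑ j, C.act (w' j) (squarePart C (m j) (ε j) (C.act (w j) α))

/-- The dimension of the exterior square (`ε = 1`) or of the
symmetric square (`ε = -1`) of a space of dimension `d`. -/
def squareRank (ε : ℤˣ) (d : ℕ) : ℕ := if ε = 1 then d.choose 2 else (d + 1).choose 2

end Pool.Agent.R673.VO
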