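import Pool.Agent.R673.VO.SymDet
import Pool.Agent.R673.VO.Defs
import Pool.Agent.R904.Voi.Act
import Pool.Agent.R904.Voi.Main

/-!
# Voisin's conjecture for surfaces spanned by pieces
-/

open CategoryTheory AlgebraicGeometry

universe u v w

namespace Pool.Agent.R673.VO

open Pool.Agent.H914 Pool.Agent.H914.VarClass Pool.Agent.H914.VarClass.Obj Pool.Agent.W492.BB
  Pool.Agent.W550.Corr Pool.Agent.TH133 Pool.Agent.TH829.Kim Pool.Agent.Y152.AS
  Pool.Agent.R904.Voi

variable {k : Type u} [Field k] {𝒱 : VarClass k}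

variable {C : TheoryData.{u, v, 0} 𝒱 ℚ} [hC : IsChowProj C] {X Y Z W V T S : 𝒱.Obj}

include hC

lemma IsHalfRank.oddSym {p : C.A (X.prod X)} {c : ℕ} (h : IsHalfRank C p c) : OddSym p c :=
  ⟨h.idem, h.symm, by have := h.deg; rw [h.dim_eq]; exact_mod_cast this, by rw [h.dim_eq]; norm_num,
    permZero_double fun W x y => by rw [← symPower_eq']; exact h.kimura W x y⟩

lemma det_iff {n : ℕ} (α : Fin n → C.A S) (s : Fin n → (W ⟶ S)) :
    ∑ σ : Equiv.Perm (Fin n), (Equiv.Perm.sign σ : ℤ) •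
        (List.ofFn fun i => C.up (s i) (α (σ i))).prod =
      (Matrix.of fun i j => C.pull (s i) (α j)).det := by
  rw [← Matrix.det_transpose, Matrix.det_apply]
  refine Finset.sum_congr rfl fun σ _ => ?_
  rw [List.prod_ofFn]
  rfl

lemma pull_eq_vl (t : W ⟶ X.prod Y) (β : C.A (X.prod Y)) :
    C.pull t β = vl C β (t ≫ fst X Y) (t ≫ snd X Y) := by
  have h2 : Obj.lift (t ≫ fst X Y) (t ≫ snd X Y) = t := by
    apply prod_ext <;> simp
  rw [vl, h2]

/-- Determinants of classes in a tensor product. -/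
lemma det_tensor {n a b : ℕ} (hab : a * b < n) {p : C.A (X.prod X)} (hp : IsHalfRank C p a)
    {q : C.A (Y.prod Y)} (hq : IsHalfRank C q b) {β : Fin n → C.A (X.prod Y)}
    (hβ : ∀ j, C.Deg 2 (β j)) (t : Fin n → (W ⟶ X.prod Y)) :
    (Matrix.of fun i j => C.pull (t i) (tensorPart C p q (β j))).det = 0 := by
  have h0 : ∀ j, tensorPart C p q (β j) ∈ C.gr (X.prod Y) ((X.dim : ℤ) + Y.dim) := by
    intro j
    have h1 := comp_mem C (e := 0) (e' := Y.dim) (Γ := p) (Δ := β j)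
      (by rw [add_zero]; exact hp.oddSym.deg) (by
        have := hβ j
        rw [hp.dim_eq, hq.dim_eq]
        exact_mod_cast this)
    have h2 := comp_mem C (e := Y.dim) (e' := 0) (Γ := C.comp p (β j)) (Δ := q)
      (by rwa [zero_add] at h1) (by rw [add_zero]; exact hq.oddSym.deg)
    rwa [add_zero] at h2
  have h1 := det_zero hab hp.oddSym hq.oddSym (α := fun j => tensorPart C p q (β j)) h0
    (fun j => by rw [tensorPart, ← comp_assoc, ← comp_assoc, hp.idem])
    (fun j => by rw [tensorPart, comp_assoc, hq.idem])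
    (fun i => t i ≫ fst X Y) (fun i => t i ≫ snd X Y)
  refine Eq.trans ?_ h1
  congr 1
  funext i j
  rw [Matrix.of_apply, Matrix.of_apply, pull_eq_vl]

lemma squarePart_symm {m : C.A (Z.prod Z)} (hm : tp C m = m) (ε : ℤˣ) (β : C.A (Z.prod Z)) :
    tp C (squarePart C m ε β) = ((ε : ℤ) : ℚ) • squarePart C m ε β := by
  have hε2 : ((ε : ℤ) : ℚ) * ((ε : ℤ) : ℚ) = 1 := by
    rw [← Int.cast_mul, Int.units_coe_mul_self, Int.cast_one]
  have h1 : tp C (β + (ε : ℤ) • tp C β) = ((ε : ℤ) : ℚ) • (β + (ε : ℤ) • tp C β) := by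
    rw [← Int.cast_smul_eq_zsmul ℚ, tp_add, smul_add, smul_smul, hε2, one_smul]
    have h2 : tp C (((ε : ℤ) : ℚ) • tp C β) = ((ε : ℤ) : ℚ) • β := by
      rw [tp, map_smul]
      change ((ε : ℤ) : ℚ) • tp C (tp C β) = _
      rw [tp_tp]
    rw [h2, add_comm]
  rw [squarePart, tp_comp C (ch_comm C), tp_comp C (ch_comm C), hm, h1, smul_comp1, comp_smul1,
    comp_assoc]

/-- Determinants of classes in the square of a motive. -/
lemma det_sq {n a : ℕ} {ε : ℤˣ} (hn : squareRank ε a < n) {m : C.A (Z.prod Z)}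
    (hm : IsHalfRank C m a) {β : Fin n → C.A (Z.prod Z)} (hβ : ∀ j, C.Deg 2 (β j))
    (t : Fin n → (W ⟶ Z.prod Z)) :
    (Matrix.of fun i j => C.pull (t i) (squarePart C m ε (β j))).det = 0 := by
  have h0 : ∀ j, squarePart C m ε (β j) ∈ C.gr (Z.prod Z) ((Z.dim : ℤ) + Z.dim) := by
    intro j
    have h3 : β j + (ε : ℤ) • tp C (β j) ∈ C.gr (Z.prod Z) ((Z.dim : ℤ) + Z.dim) := by
      have h4 : β j ∈ C.gr (Z.prod Z) ((Z.dim : ℤ) + Z.dim) := by
        have := hβ j
        rw [hm.dim_eq]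
        exact_mod_cast this
      rw [← Int.cast_smul_eq_zsmul ℚ]
      exact Submodule.add_mem _ h4 (Submodule.smul_mem _ _ (tp_mem C h4))
    have h1 := comp_mem C (e := 0) (e' := Z.dim) (Γ := m) (Δ := β j + (ε : ℤ) • tp C (β j))
      (by rw [add_zero]; exact hm.oddSym.deg) h3
    have h2 := comp_mem C (e := Z.dim) (e' := 0) (Γ := C.comp m (β j + (ε : ℤ) • tp C (β j)))
      (Δ := m) (by rwa [zero_add] at h1) (by rw [add_zero]; exact hm.oddSym.deg)
    rwa [add_zero] at h2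
  have h1 := det_square (ε := ε) hn hm.oddSym (α := fun j => squarePart C m ε (β j)) h0
    (fun j => by rw [squarePart, ← comp_assoc, ← comp_assoc, hm.idem])
    (fun j => by rw [squarePart, comp_assoc, hm.idem])
    (fun j => squarePart_symm hm.symm ε (β j))
    (fun i => t i ≫ fst Z Z) (fun i => t i ≫ snd Z Z)
  refine Eq.trans ?_ h1
  congr 1
  funext i j
  rw [Matrix.of_apply, Matrix.of_apply, pull_eq_vl]

/-- The image of a class in the Albanese kernel has the right degree. -/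
lemma deg_act {U : 𝒱.Obj} (hSd : S.dim = 2) (hU : U.dim = 2) {x : C.A (S.prod U)}
    (hx : C.Deg 2 x) {α : C.A S} (hα : InAlbKer C α) : C.Deg 2 (C.act x α) := by
  have h1 := (albKer_act (b := x) (by rw [hSd]; exact hx) (by rw [hSd, hU]) hα).deg
  rw [hU] at h1
  exact_mod_cast h1

lemma minor_known {U : 𝒱.Obj} {n g : ℕ} (hn : g < n) (hSd : S.dim = 2) (hU : U.dim = 2)
    {u : C.A (S.prod U)} (hu : C.Deg 2 u) (u' : C.A (U.prod S)) (hV : VoisinAbove C U g)
    {α : Fin n → C.A S} (hα : ∀ l, InAlbKer C (α l)) (s : Fin n → (W ⟶ S)) :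
    (Matrix.of fun i j => C.pull (s i) (C.act u' (C.act u (α j)))).det = 0 := by
  have h0 : ∀ (W : 𝒱.Obj) (t : Fin n → (W ⟶ U)),
      (Matrix.of fun i j => C.pull (t i) (C.act u (α j))).det = 0 := by
    intro W t
    have h1 := hV n hn (fun l => C.act u (α l))
      (fun l => albKer_act (by rw [hSd]; exact hu) (by rw [hSd, hU]) (hα l)) W t
    rw [det_iff (fun l => C.act u (α l)) t] at h1
    exact h1
  exact det_trans u' (fun l => C.act u (α l)) h0 s

lemma minor_tensor {n a b : ℕ} (hn : a * b < n) (hSd : S.dim = 2)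
    {v : C.A (S.prod (X.prod Y))} (hv : C.Deg 2 v) (v' : C.A ((X.prod Y).prod S))
    {p : C.A (X.prod X)} (hp : IsHalfRank C p a) {q : C.A (Y.prod Y)} (hq : IsHalfRank C q b)
    {α : Fin n → C.A S} (hα : ∀ l, InAlbKer C (α l)) (s : Fin n → (W ⟶ S)) :
    (Matrix.of fun i j => C.pull (s i) (C.act v' (tensorPart C p q (C.act v (α j))))).det = 0 := by
  have hd : (X.prod Y).dim = 2 := by rw [dim_prod, hp.dim_eq, hq.dim_eq]
  exact det_trans v' (fun l => tensorPart C p q (C.act v (α l))) (fun W t =>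
    det_tensor hn hp hq (fun l => deg_act hSd hd hv (hα l)) t) s

lemma minor_square {n a : ℕ} {ε : ℤˣ} (hn : squareRank ε a < n) (hSd : S.dim = 2)
    {v : C.A (S.prod (Z.prod Z))} (hv : C.Deg 2 v) (v' : C.A ((Z.prod Z).prod S))
    {m : C.A (Z.prod Z)} (hm : IsHalfRank C m a)
    {α : Fin n → C.A S} (hα : ∀ l, InAlbKer C (α l)) (s : Fin n → (W ⟶ S)) :
    (Matrix.of fun i j => C.pull (s i) (C.act v' (squarePart C m ε (C.act v (α j))))).det = 0 := by
  have hd : (Z.prod Z).dim = 2 := by rw [dim_prod, hm.dim_eq]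
  exact det_trans v' (fun l => squarePart C m ε (C.act v (α l))) (fun W t =>
    det_sq hn hm (fun l => deg_act hSd hd hv (hα l)) t) s

/-- The abstract additivity. -/
lemma det_pieces {n : ℕ} {Φ : Type} [Fintype Φ] [DecidableEq Φ] (G : Φ → ℕ) (hG : ∑ φ, G φ < n)
    {α : Fin n → C.A S} (s : Fin n → (W ⟶ S)) (T : Φ → Fin n → C.A S) {N : ℚ} (hN : N ≠ 0)
    (hT : ∀ l, ∑ φ, T φ l = N • α l)
    (key : ∀ φ (n' : ℕ), G φ < n' → ∀ (l : Fin n' → Fin n) (s' : Fin n' → (W ⟶ S)),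
      (Matrix.of fun i j => C.pull (s' i) (T φ (l j))).det = 0) :
    (Matrix.of fun i j => C.pull (s i) (α j)).det = 0 := by
  classical
  have hdet := det_of_types G hG (fun φ => (Matrix.of fun i j => C.pull (s i) (T φ j) :
      Matrix (Fin n) (Fin n) (C.A W))) fun φ J hJ r => by
    let e : J ≃ Fin J.card := J.equivFin
    rw [← Matrix.det_reindex_self e]
    exact key φ J.card hJ (fun i => e.symm i) (fun i => s (r (e.symm i)))
  have h4 : (Matrix.of fun i j => ∑ φ, (Matrix.of fun i j => C.pull (s i) (T φ j) :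
      Matrix (Fin n) (Fin n) (C.A W)) i j) = N • (Matrix.of fun i j => C.pull (s i) (α j)) := by
    funext i j
    rw [Matrix.smul_apply, Matrix.of_apply, Matrix.of_apply, ← map_smul, ← hT, map_sum]
    rfl
  rw [h4, ← algebraMap_smul (C.A W) N, Matrix.det_smul, ← map_pow, ← Algebra.smul_def] at hdet
  exact (smul_eq_zero.1 hdet).resolve_left (pow_ne_zero _ hN)

theorem main {ι₁ ι₂ ι₃ : Type} [Fintype ι₁] [Fintype ι₂] [Fintype ι₃]
    {R : ι₁ → 𝒱.Obj} {X Y : ι₂ → 𝒱.Obj} {p : ∀ j, C.A ((X j).prod (X j))}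
    {q : ∀ j, C.A ((Y j).prod (Y j))} {Z : ι₃ → 𝒱.Obj} {m : ∀ j, C.A ((Z j).prod (Z j))}
    {ε : ι₃ → ℤˣ} (hS : IsSpanned C S R p q m ε) {g : ι₁ → ℕ} {c c' : ι₂ → ℕ} {d : ι₃ → ℕ}
    (hR : ∀ i, VoisinAbove C (R i) (g i)) (hp : ∀ j, IsHalfRank C (p j) (c j))
    (hq : ∀ j, IsHalfRank C (q j) (c' j)) (hm : ∀ j, IsHalfRank C (m j) (d j)) :
    VoisinAbove C S (∑ i, g i + ∑ j, c j * c' j + ∑ j, squareRank (ε j) (d j)) := by
  classical
  intro n hn α hα W s
  obtain ⟨hSd, hRd, N, u, u', v, v', w, w', hN, hu, hv, hw, hdom⟩ := hS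
  rw [det_iff]
  refine det_pieces (Φ := ι₁ ⊕ (ι₂ ⊕ ι₃))
    (Sum.elim g (Sum.elim (fun j => c j * c' j) (fun j => squareRank (ε j) (d j)))) ?_ s
    (Sum.elim (fun i l => C.act (u' i) (C.act (u i) (α l)))
    (Sum.elim (fun j l => C.act (v' j) (tensorPart C (p j) (q j) (C.act (v j) (α l))))
      (fun j l => C.act (w' j) (squarePart C (m j) (ε j) (C.act (w j) (α l)))))) hN ?_ ?_
  · simp only [Fintype.sum_sum_type, Sum.elim_inl, Sum.elim_inr]
    omega
  · intro l
    rw [hdom _ (hα l)]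
    simp only [Fintype.sum_sum_type, Sum.elim_inl, Sum.elim_inr]
    rw [add_assoc]
  · rintro (i | j | j) n' hn' l s'
    · exact minor_known hn' hSd (hRd i) (hu i).1 (u' i) (hR i) (fun a => hα (l a)) s'
    · exact minor_tensor hn' hSd (hv j).1 (v' j) (hp j) (hq j) (fun a => hα (l a)) s'
    · exact minor_square hn' hSd (hw j).1 (w' j) (hm j) (fun a => hα (l a)) s'

end Pool.Agent.R673.VO
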