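import Pool.Agent.R673.VO.AltSym
import Pool.Agent.R904.Voi.RelG
import Pool.Agent.R904.Voi.Trans

/-!
# Determinants of symmetric and antisymmetric zero-cycles on squares
-/

open CategoryTheory AlgebraicGeometry

universe u v w

namespace Pool.Agent.R673.VO

open Pool.Agent.H914 Pool.Agent.H914.VarClass Pool.Agent.H914.VarClass.Obj Pool.Agent.W492.BB
  Pool.Agent.W550.Corr Pool.Agent.TH133 Pool.Agent.TH829.Kim Pool.Agent.R904.Voi

variable {k : Type u} [Field k] {𝒱 : VarClass k}

variable {C : TheoryData.{u, v, 0} 𝒱 ℚ} [hC : IsChowProj C] {X Y Z W V T B : 𝒱.Obj}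

include hC

/-- The product of the values of the classes `α j` at the pairs of points `x (inl j)`,
`x (inr j)`. -/
lemma isTop_pairs {n a : ℕ} {p : C.A (X.prod X)} (hp : OddSym p a) {α : Fin n → C.A (X.prod X)}
    (hα : ∀ j, α j ∈ C.gr (X.prod X) ((X.dim : ℤ) + X.dim))
    (hfix : ∀ j, C.comp p (α j) = α j) (hfix' : ∀ j, C.comp (α j) p = α j)
    (A : Finset (Fin n ⊕ Fin n)) :
    IsTop (B := X) C p A fun (_ : 𝒱.Obj) _ x =>
      ∏ j, vl C (α j) (x (Sum.inl j)) (x (Sum.inr j)) where
  nat := by
    intro V W g b x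
    rw [map_prod]
    exact Finset.prod_congr rfl fun j _ => pull_vl _ _ _ _
  fix := by
    intro W b x l _
    classical
    rcases l with j | j
    · have h1 : ∏ j, vl C (α j) (x (Sum.inl j)) (x (Sum.inr j)) =
          vl C (α j) (x (Sum.inl j)) (x (Sum.inr j)) *
            ∏ i ∈ Finset.univ.erase j, vl C (α i) (x (Sum.inl i)) (x (Sum.inr i)) :=
        (Finset.mul_prod_erase Finset.univ _ (Finset.mem_univ j)).symm
      rw [h1]
      rw [← Finset.mul_prod_erase Finset.univ (fun i => vl C (α i)
        (Function.update (fun i => fst W X ≫ x i) (Sum.inl j) (snd W X) (Sum.inl i))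
        (Function.update (fun i => fst W X ≫ x i) (Sum.inl j) (snd W X) (Sum.inr i)))
        (Finset.mem_univ j)]
      have h2 : ∏ i ∈ Finset.univ.erase j, vl C (α i)
          (Function.update (fun i => fst W X ≫ x i) (Sum.inl j) (snd W X) (Sum.inl i))
          (Function.update (fun i => fst W X ≫ x i) (Sum.inl j) (snd W X) (Sum.inr i)) =
          C.pull (fst W X) (∏ i ∈ Finset.univ.erase j,
            vl C (α i) (x (Sum.inl i)) (x (Sum.inr i))) := by
        rw [map_prod]
        refine Finset.prod_congr rfl fun i hi => ?_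
        have hne : (Sum.inl i : Fin n ⊕ Fin n) ≠ Sum.inl j := fun h =>
          (Finset.ne_of_mem_erase hi) (Sum.inl_injective h)
        rw [Function.update_of_ne hne, Function.update_of_ne (by simp), pull_vl]
      rw [h2, Function.update_self, Function.update_of_ne (by simp), ← mul_assoc, C.proj_right]
      congr 1
      conv_lhs => rw [← hfix j]
      exact vl_comp _ _ _ _
    · have h1 : ∏ j, vl C (α j) (x (Sum.inl j)) (x (Sum.inr j)) =
          vl C (α j) (x (Sum.inl j)) (x (Sum.inr j)) *
            ∏ i ∈ Finset.univ.erase j, vl C (α i) (x (Sum.inl i)) (x (Sum.inr i)) :=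
        (Finset.mul_prod_erase Finset.univ _ (Finset.mem_univ j)).symm
      rw [h1]
      rw [← Finset.mul_prod_erase Finset.univ (fun i => vl C (α i)
        (Function.update (fun i => fst W X ≫ x i) (Sum.inr j) (snd W X) (Sum.inl i))
        (Function.update (fun i => fst W X ≫ x i) (Sum.inr j) (snd W X) (Sum.inr i)))
        (Finset.mem_univ j)]
      have h2 : ∏ i ∈ Finset.univ.erase j, vl C (α i)
          (Function.update (fun i => fst W X ≫ x i) (Sum.inr j) (snd W X) (Sum.inl i))
          (Function.update (fun i => fst W X ≫ x i) (Sum.inr j) (snd W X) (Sum.inr i)) =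
          C.pull (fst W X) (∏ i ∈ Finset.univ.erase j,
            vl C (α i) (x (Sum.inl i)) (x (Sum.inr i))) := by
        rw [map_prod]
        refine Finset.prod_congr rfl fun i hi => ?_
        have hne : (Sum.inr i : Fin n ⊕ Fin n) ≠ Sum.inr j := fun h =>
          (Finset.ne_of_mem_erase hi) (Sum.inr_injective h)
        rw [Function.update_of_ne hne, Function.update_of_ne (by simp), pull_vl]
      rw [h2, Function.update_self, Function.update_of_ne (by simp), ← mul_assoc, C.proj_right]
      congr 1
      conv_lhs => rw [← hfix' j]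
      rw [vl_comp, ch_comm C]
      congr 2
      exact vl_symm hp.symm _ _
  top := by
    intro W b x l _ l' _ hll
    classical
    -- two different indices
    have key : ∀ (i i' : Fin n), i ≠ i' → ∀ c : C.A W,
        c * (vl C (α i) (x (Sum.inl i)) (x (Sum.inr i)) *
          vl C (α i') (x (Sum.inl i')) (x (Sum.inr i'))) = 0 →
        c * ∏ j, vl C (α j) (x (Sum.inl j)) (x (Sum.inr j)) = 0 := by
      intro i i' hii c hc
      rw [← Finset.mul_prod_erase Finset.univ _ (Finset.mem_univ i),
        ← Finset.mul_prod_erase (Finset.univ.erase i) _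
          (Finset.mem_erase.2 ⟨hii.symm, Finset.mem_univ i'⟩), ← mul_assoc, ← mul_assoc,
        mul_assoc c, hc, zero_mul]
    have htp : ∀ j, tp C (α j) ∈ C.gr (X.prod X) ((X.dim : ℤ) + X.dim) := fun j =>
      tp_mem C (hα j)
    have same : ∀ j : Fin n, vl C p (x (Sum.inl j)) (x (Sum.inr j)) *
        ∏ j, vl C (α j) (x (Sum.inl j)) (x (Sum.inr j)) = 0 := by
      intro j
      rw [← Finset.mul_prod_erase Finset.univ _ (Finset.mem_univ j), ← mul_assoc]
      have h0 : p * α j = 0 := by
        apply hC.gr_top _ (X.dim + ((X.dim : ℤ) + X.dim)) _ (C.mul_mem hp.deg (hα j))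
        rw [dim_prod]
        push_cast
        have : (0 : ℤ) < X.dim := by exact_mod_cast hp.pos
        linarith
      have h1 : vl C p (x (Sum.inl j)) (x (Sum.inr j)) *
          vl C (α j) (x (Sum.inl j)) (x (Sum.inr j)) = 0 := by
        rw [vl, vl, ← map_mul, h0, map_zero]
      rw [h1, zero_mul]
    rcases l with j | j <;> rcases l' with j' | j'
    · have hne : j ≠ j' := fun h => hll (by rw [h])
      exact key j j' hne _ (vanish hp.deg hp.pos (hα j) (hα j') _ _ _ _)
    · by_cases hne : j = j'
      · subst hne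
        exact same j
      · refine key j j' hne _ ?_
        have := vanish hp.deg hp.pos (hα j) (htp j') (x (Sum.inl j)) (x (Sum.inr j'))
          (x (Sum.inr j)) (x (Sum.inl j'))
        rwa [vl_tp] at this
    · by_cases hne : j = j'
      · subst hne
        rw [vl_symm hp.symm]
        exact same j
      · refine key j j' hne _ ?_
        have := vanish hp.deg hp.pos (htp j) (hα j') (x (Sum.inr j)) (x (Sum.inl j'))
          (x (Sum.inl j)) (x (Sum.inr j'))
        rwa [vl_tp] at this
    · have hne : j ≠ j' := fun h => hll (by rw [h])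
      refine key j j' hne _ ?_
      have := vanish hp.deg hp.pos (htp j) (htp j') (x (Sum.inr j)) (x (Sum.inr j'))
          (x (Sum.inl j)) (x (Sum.inl j'))
      rwa [vl_tp, vl_tp] at this

/-- The determinant of symmetric or antisymmetric zero-cycles on `X × X` which come from the square
of a motive with vanishing permanents of size `2 a + 1`. -/
theorem det_square {n a : ℕ} {ε : ℤˣ} (hn : sq ε a < n) {p : C.A (X.prod X)} (hp : OddSym p a)
    {α : Fin n → C.A (X.prod X)} (hα : ∀ j, α j ∈ C.gr (X.prod X) ((X.dim : ℤ) + X.dim))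
    (hfix : ∀ j, C.comp p (α j) = α j) (hfix' : ∀ j, C.comp (α j) p = α j)
    (hε : ∀ j, tp C (α j) = ((ε : ℤ) : ℚ) • α j) (x y : Fin n → (W ⟶ X)) :
    (Matrix.of fun i j => vl C (α j) (x i) (y i)).det = 0 := by
  classical
  let w : Fin n ⊕ Fin n → (W ⟶ X) := Sum.elim x y
  have h1 := alt_sym (M := C.A W) hn (fun π => ∏ j, vl C (α j) (w (π (Sum.inl j)))
    (w (π (Sum.inr j)))) ?_ ?_
  · rw [Matrix.det_apply, ← h1]
    refine Finset.sum_congr rfl fun σ _ => ?_
    rw [Units.smul_def, Int.cast_smul_eq_zsmul]
    rfl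
  · intro π f
    have h2 : ∀ j, vl C (α j) (w ((π * fl f) (Sum.inl j))) (w ((π * fl f) (Sum.inr j))) =
        (if f j then ((ε : ℤ) : ℚ) else 1) • vl C (α j) (w (π (Sum.inl j)))
          (w (π (Sum.inr j))) := by
      intro j
      rw [Equiv.Perm.mul_apply, Equiv.Perm.mul_apply, fl_inl, fl_inr]
      split_ifs with h
      · rw [← vl_tp, hε, vl_smul]
      · rw [one_smul]
    rw [Finset.prod_congr rfl fun j _ => h2 j]
    have h3 : ∀ (s : Finset (Fin n)) (r : Fin n → ℚ) (g : Fin n → C.A W),
        ∏ j ∈ s, r j • g j = (∏ j ∈ s, r j) • ∏ j ∈ s, g j := by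
      intro s r g
      exact Finset.prod_smul _ _ _
    exact h3 _ _ _
  · intro A hA π
    have h2 := relG hp.idem hp.symm hp.perm hA (isTop_pairs hp hα hfix hfix' A) W
      (w (Sum.elim (fun j => Sum.inl j) (fun j => Sum.inl j) (Sum.inl ⟨0, by omega⟩)))
      (fun l => w (π l))
    exact h2

end Pool.Agent.R673.VO
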